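import Mathlib
import Pool.Agent.H83.Remainder
import Pool.Agent.H83.Covering
import Pool.Agent.H83.Aposyndesis

/-!
# Remainders of manifolds with boundary and corners

The argument of `Pool.Agent.H83.Aposyndesis`, with charts into
`{v : Fin n → ℝ // ∀ i ∈ S, 0 ≤ v i}`, for a closed set and finitely many points.
-/

namespace Pool.Agent.Lib.H22A

open Set Topology Filter Metric
open Pool.Agent.H83 hiding single_chart_shrink chart_cubes family_cubes aposyndetic

variable {M : Type*} [TopologicalSpace M]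

/-- The model space: the vectors whose coordinates with index in `S` are nonnegative. -/
abbrev Model (n : ℕ) (S : Set (Fin n)) : Type := {v : Fin n → ℝ // ∀ i ∈ S, 0 ≤ v i}

section Fold

variable {n : ℕ} {S : Set (Fin n)}

lemma isClosedEmbedding_val : IsClosedEmbedding (Subtype.val : Model n S → (Fin n → ℝ)) := by
  apply IsClosed.isClosedEmbedding_subtypeVal
  have : {v : Fin n → ℝ | ∀ i ∈ S, 0 ≤ v i} = ⋂ i ∈ S, {v | 0 ≤ v i} := by
    ext v
    simp
  change IsClosed {v : Fin n → ℝ | ∀ i ∈ S, 0 ≤ v i}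
  rw [this]
  exact isClosed_biInter fun i _ => isClosed_le continuous_const (continuous_apply i)

open Classical in
/-- The fold `ℝⁿ → Model n S`. -/
noncomputable def fold (S : Set (Fin n)) (v : Fin n → ℝ) : Model n S :=
  ⟨fun i => if i ∈ S then |v i| else v i, fun i hi => by simp [hi]⟩

lemma continuous_fold : Continuous (fold S) := by
  refine Continuous.subtype_mk (continuous_pi fun i => ?_) _
  by_cases hi : i ∈ S
  · simp only [hi, if_true]
    exact (continuous_apply i).abs
  · simp only [hi, if_false]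
    exact continuous_apply i

lemma fold_val (v : Model n S) : fold S v.1 = v := by
  apply Subtype.ext
  funext i
  by_cases hi : i ∈ S
  · simp [fold, hi, abs_of_nonneg (v.2 i hi)]
  · simp [fold, hi]

lemma dist_fold {r s : ℝ} (hr : 0 < r) (hs : s < r) {m : Fin n → ℤ} (hm : ∀ i ∈ S, 0 ≤ m i)
    {v : Fin n → ℝ} (hv : dist v (latt r m) ≤ s) :
    dist (fold S v).1 (latt r m) = dist v (latt r m) := by
  have key : ∀ i, dist ((fold S v).1 i) (latt r m i) = dist (v i) (latt r m i) := by
    intro i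
    by_cases hi : i ∈ S
    · rcases (hm i hi).eq_or_lt with h0 | h0
      · simp [fold, hi, latt, ← h0]
      · have h1 : |v i - r * (m i : ℝ)| ≤ s := by
          have := dist_le_pi_dist v (latt r m) i
          rw [Real.dist_eq] at this
          exact this.trans hv
        have h2 : (1 : ℝ) ≤ m i := by exact_mod_cast h0
        have h3 : 0 ≤ v i := by
          have h4 := (abs_le.1 h1).1
          nlinarith
        simp [fold, hi, abs_of_nonneg h3]
    · simp [fold, hi]
  apply le_antisymm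
  · exact (dist_pi_le_iff dist_nonneg).2 fun i => (key i).le.trans (dist_le_pi_dist _ _ i)
  · exact (dist_pi_le_iff dist_nonneg).2 fun i => (key i).ge.trans (dist_le_pi_dist _ _ i)

/-- Open cubes of the model. -/
def cube (S : Set (Fin n)) (r : ℝ) (m : Fin n → ℤ) (s : ℝ) : Set (Model n S) :=
  Subtype.val ⁻¹' ball (latt r m) s

/-- Closed cubes of the model. -/
def ccube (S : Set (Fin n)) (r : ℝ) (m : Fin n → ℤ) (s : ℝ) : Set (Model n S) :=
  Subtype.val ⁻¹' closedBall (latt r m) s

/-- Boundaries of cubes of the model. -/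
def scube (S : Set (Fin n)) (r : ℝ) (m : Fin n → ℤ) (s : ℝ) : Set (Model n S) :=
  Subtype.val ⁻¹' sphere (latt r m) s

lemma isOpen_cube {r : ℝ} {m : Fin n → ℤ} {s : ℝ} : IsOpen (cube S r m s) :=
  isOpen_ball.preimage continuous_subtype_val

lemma isClosed_ccube {r : ℝ} {m : Fin n → ℤ} {s : ℝ} : IsClosed (ccube S r m s) :=
  isClosed_closedBall.preimage continuous_subtype_val

lemma isCompact_ccube {r : ℝ} {m : Fin n → ℤ} {s : ℝ} : IsCompact (ccube S r m s) :=
  isClosedEmbedding_val.isCompact_preimage (isCompact_closedBall _ _)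

lemma cube_subset_ccube {r : ℝ} {m : Fin n → ℤ} {s : ℝ} : cube S r m s ⊆ ccube S r m s :=
  preimage_mono ball_subset_closedBall

lemma scube_subset_ccube {r : ℝ} {m : Fin n → ℤ} {s : ℝ} : scube S r m s ⊆ ccube S r m s :=
  preimage_mono sphere_subset_closedBall

lemma frontier_cube {r s : ℝ} (hr : 0 < r) (hs0 : 0 < s) (hs : s < r) {m : Fin n → ℤ}
    (hm : ∀ i ∈ S, 0 ≤ m i) : frontier (cube S r m s) = scube S r m s := by
  have hcl : closure (cube S r m s) = ccube S r m s := by
    apply Subset.antisymm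
    · exact closure_minimal cube_subset_ccube isClosed_ccube
    · intro v hv
      have h1 : (v : Fin n → ℝ) ∈ closure (ball (latt r m) s) := by
        rw [closure_ball _ hs0.ne']
        exact hv
      have h2 : fold S v.1 ∈ closure (fold S '' ball (latt r m) s) :=
        image_closure_subset_closure_image continuous_fold ⟨_, h1, rfl⟩
      rw [fold_val] at h2
      refine closure_mono ?_ h2
      rintro _ ⟨w, hw, rfl⟩
      change dist (fold S w).1 (latt r m) < s
      rw [dist_fold hr hs hm (mem_ball.1 hw).le]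
      exact hw
  rw [frontier, hcl, isOpen_cube.interior_eq]
  ext v
  simp only [ccube, cube, scube, Set.mem_sdiff, mem_preimage, mem_closedBall, mem_ball, mem_sphere,
    not_lt]
  exact ⟨fun h => le_antisymm h.1 h.2, fun h => ⟨h.le, h.ge⟩⟩

lemma isPreconnected_scube (hn : 1 < n) {r s : ℝ} (hr : 0 < r) (hs : s < r)
    {m : Fin n → ℤ} (hm : ∀ i ∈ S, 0 ≤ m i) : IsPreconnected (scube S r m s) := by
  have h1 : scube S r m s = fold S '' sphere (latt r m) s := by
    ext v
    constructor
    · intro hv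
      exact ⟨v.1, hv, fold_val v⟩
    · rintro ⟨w, hw, rfl⟩
      change dist (fold S w).1 (latt r m) = s
      rw [dist_fold hr hs hm (mem_sphere.1 hw).le]
      exact hw
  rw [h1]
  refine IsPreconnected.image ?_ _ continuous_fold.continuousOn
  apply isPreconnected_sphere
  rw [rank_fin_fun]
  exact_mod_cast hn

end Fold

/-- In a single chart, covers can be shrunk so as to have order at most `2 ^ n`. -/
lemma single_chart_shrink {n : ℕ} {T : Set (Fin n)} (φ : OpenPartialHomeomorph M (Model n T))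
    {A : Set M} (hA : IsCompact A) (hAφ : A ⊆ φ.source) {S : Type*} (U : S → Set M)
    (hU : ∀ s, IsOpen (U s)) (hAU : A ⊆ ⋃ s, U s) :
    ∃ V : S → Set M, (∀ s, IsOpen (V s)) ∧ (∀ s, V s ⊆ U s) ∧ A ⊆ ⋃ s, V s ∧
      ∀ x, ∃ F : Finset S, F.card ≤ 2 ^ n ∧ ∀ s, x ∈ V s → s ∈ F := by
  classical
  rcases isEmpty_or_nonempty S with hS | hS
  · refine ⟨U, hU, fun s => subset_rfl, hAU, fun x => ⟨∅, by simp, fun s => (hS.false s).elim⟩⟩
  have hK : IsCompact (φ '' A) := hA.image_of_continuousOn (φ.continuousOn.mono hAφ)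
  have hc : ∀ s, IsOpen (φ '' (φ.source ∩ U s)) := fun s =>
    φ.isOpen_image_of_subset_source (φ.open_source.inter (hU s)) inter_subset_left
  have hKc : φ '' A ⊆ ⋃ s, φ '' (φ.source ∩ U s) := by
    rintro _ ⟨x, hx, rfl⟩
    obtain ⟨s, hs⟩ := mem_iUnion.mp (hAU hx)
    exact mem_iUnion.mpr ⟨s, x, ⟨hAφ hx, hs⟩, rfl⟩
  obtain ⟨δ, hδ, hleb⟩ := lebesgue_number_lemma_of_metric hK hc hKc
  set r : ℝ := δ / 2 with hr
  have hr0 : 0 < r := by positivity
  have hex : ∀ m : Fin n → ℤ, (cube T r m r ∩ φ '' A).Nonempty →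
      ∃ s, cube T r m r ⊆ φ '' (φ.source ∩ U s) := by
    rintro m ⟨x, hxm, hxA⟩
    obtain ⟨s, hs⟩ := hleb x hxA
    refine ⟨s, Subset.trans ?_ hs⟩
    intro y hy
    have hy' : dist y.1 (latt r m) < r := hy
    have hx' : dist x.1 (latt r m) < r := hxm
    rw [mem_ball, Subtype.dist_eq]
    calc dist y.1 x.1 ≤ dist y.1 (latt r m) + dist x.1 (latt r m) := dist_triangle_right _ _ _
      _ < r + r := add_lt_add hy' hx'
      _ = δ := by rw [hr]; ring
  choose! σ hσ using hex
  let V : S → Set M := fun s => φ.source ∩ φ ⁻¹'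
    (⋃ m ∈ {m : Fin n → ℤ | (cube T r m r ∩ φ '' A).Nonempty ∧ σ m = s}, cube T r m r)
  refine ⟨V, ?_, ?_, ?_, ?_⟩
  · intro s
    exact φ.isOpen_inter_preimage (isOpen_biUnion fun m _ => isOpen_cube)
  · rintro s x ⟨hx, hxm⟩
    rw [mem_preimage, mem_iUnion₂] at hxm
    obtain ⟨m, ⟨hm, rfl⟩, hxm⟩ := hxm
    obtain ⟨y, ⟨hy1, hy2⟩, hy⟩ := hσ m hm hxm
    rwa [φ.injOn hy1 hx hy] at hy2
  · intro x hx
    obtain ⟨m, hm⟩ := exists_latt hr0 (φ x).1
    have hm' : φ x ∈ cube T r m r := closedBall_subset_ball (by linarith) hm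
    have hne : (cube T r m r ∩ φ '' A).Nonempty := ⟨φ x, hm', x, hx, rfl⟩
    refine mem_iUnion.mpr ⟨σ m, hAφ hx, ?_⟩
    rw [mem_preimage, mem_iUnion₂]
    exact ⟨m, ⟨hne, rfl⟩, hm'⟩
  · intro x
    obtain ⟨F, hF, hFm⟩ := mult_bound hr0 (φ x).1
    refine ⟨F.image σ, Finset.card_image_le.trans hF, ?_⟩
    rintro s ⟨hx, hxm⟩
    rw [mem_preimage, mem_iUnion₂] at hxm
    obtain ⟨m, ⟨hm, rfl⟩, hxm⟩ := hxm
    exact Finset.mem_image_of_mem σ (hFm m hxm)

/-- Small cubes inside a single chart. -/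
lemma chart_cubes [T2Space M] {n : ℕ} (hn : 1 < n) {S : Set (Fin n)}
    (φ : OpenPartialHomeomorph M (Model n S))
    {V C U₀ U₁ : Set M} (hV : IsOpen V) (hVφ : V ⊆ φ.source) (hC : IsCompact C) (hCV : C ⊆ V)
    (hU₀ : IsOpen U₀) (hU₁ : IsOpen U₁) (hU : U₀ ∪ U₁ = univ) :
    ∃ O D : (Fin n → ℤ) → Set M, (∀ m, IsOpen (O m)) ∧ (∀ m, IsCompact (closure (O m))) ∧
      (∀ m, closure (O m) ⊆ V) ∧ (∀ m, IsPreconnected (frontier (O m))) ∧
      (∀ m, O m ⊆ U₀ ∨ O m ⊆ U₁) ∧ (∀ m, IsCompact (D m)) ∧ (∀ m, D m ⊆ O m) ∧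
      C ⊆ ⋃ m, D m ∧ {m | (O m).Nonempty}.Finite ∧
      ∀ m m', m ≠ m' → (∀ k, (m k : ZMod 2) = (m' k : ZMod 2)) →
        Disjoint (closure (O m)) (closure (O m')) := by
  classical
  set K : Set (Model n S) := φ '' C with hKdef
  have hCφ : C ⊆ φ.source := hCV.trans hVφ
  have hK : IsCompact K := hC.image_of_continuousOn (φ.continuousOn.mono hCφ)
  let c : Bool → Set (Model n S) := fun b => φ '' (V ∩ (if b then U₀ else U₁))
  have hc : ∀ b, IsOpen (c b) := by
    intro b
    refine φ.isOpen_image_of_subset_source (hV.inter ?_) (inter_subset_left.trans hVφ)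
    cases b
    · simpa using hU₁
    · simpa using hU₀
  have hKc : K ⊆ ⋃ b, c b := by
    rintro _ ⟨x, hx, rfl⟩
    have hxU : x ∈ U₀ ∪ U₁ := by rw [hU]; trivial
    rcases hxU with h | h
    · exact mem_iUnion.mpr ⟨true, x, ⟨hCV hx, by simpa using h⟩, rfl⟩
    · exact mem_iUnion.mpr ⟨false, x, ⟨hCV hx, by simpa using h⟩, rfl⟩
  obtain ⟨δ, hδ, hleb⟩ := lebesgue_number_lemma_of_metric hK hc hKc
  set r : ℝ := δ / 2 with hr
  have hr0 : 0 < r := by positivity
  have hr34 : 3 * r / 4 < r := by linarith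
  have hr340 : 0 < 3 * r / 4 := by linarith
  let good : (Fin n → ℤ) → Prop := fun m => (ccube S r m (r / 2) ∩ K).Nonempty
  -- the centre of a good cube lies in the model
  have hgoodS : ∀ m, good m → ∀ i ∈ S, 0 ≤ m i := by
    rintro m ⟨x, hxm, -⟩ i hi
    have hx' : dist x.1 (latt r m) ≤ r / 2 := hxm
    have h1 := (dist_le_pi_dist x.1 (latt r m) i).trans hx'
    rw [Real.dist_eq, latt, abs_le] at h1
    have h2 := x.2 i hi
    have h3 : (-1 : ℝ) < m i := by
      by_contra hcon
      push Not at hcon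
      have h4 : r * (m i : ℝ) ≤ r * (-1) := mul_le_mul_of_nonneg_left hcon hr0.le
      linarith [h1.2]
    have h5 : (-1 : ℤ) < m i := by exact_mod_cast h3
    omega
  have hgood : ∀ m, good m → ∃ b, ccube S r m (3 * r / 4) ⊆ c b := by
    rintro m ⟨x, hxm, hxK⟩
    obtain ⟨b, hb⟩ := hleb x hxK
    refine ⟨b, Subset.trans ?_ hb⟩
    intro y hy
    have hy' : dist y.1 (latt r m) ≤ 3 * r / 4 := hy
    have hx' : dist x.1 (latt r m) ≤ r / 2 := hxm
    rw [mem_ball, Subtype.dist_eq]
    calc dist y.1 x.1 ≤ dist y.1 (latt r m) + dist x.1 (latt r m) := dist_triangle_right _ _ _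
      _ ≤ 3 * r / 4 + r / 2 := add_le_add hy' hx'
      _ < δ := by rw [hr] at hr0 ⊢; linarith
  have hcV : ∀ b, c b ⊆ φ '' V := fun b => image_mono inter_subset_left
  let O : (Fin n → ℤ) → Set M := fun m =>
    if good m then φ.source ∩ φ ⁻¹' (cube S r m (3 * r / 4)) else ∅
  let D : (Fin n → ℤ) → Set M := fun m =>
    if good m then C ∩ φ ⁻¹' (ccube S r m (r / 2)) else ∅
  have hOg : ∀ m, good m → O m = φ.source ∩ φ ⁻¹' (cube S r m (3 * r / 4)) :=
    fun m hm => if_pos hm
  have hOn : ∀ m, ¬ good m → O m = ∅ := fun m hm => if_neg hm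
  have hDg : ∀ m, good m → D m = C ∩ φ ⁻¹' (ccube S r m (r / 2)) :=
    fun m hm => if_pos hm
  have hDn : ∀ m, ¬ good m → D m = ∅ := fun m hm => if_neg hm
  -- the closed cubes, pulled back
  let Q : (Fin n → ℤ) → Set M := fun m => φ.symm '' (ccube S r m (3 * r / 4))
  have hQsub : ∀ m, good m → ccube S r m (3 * r / 4) ⊆ φ.target := by
    intro m hm
    obtain ⟨b, hb⟩ := hgood m hm
    refine (hb.trans (hcV b)).trans ?_
    rintro _ ⟨x, hx, rfl⟩
    exact φ.map_source (hVφ hx)
  have hQeq : ∀ m, good m → Q m = φ.source ∩ φ ⁻¹' (ccube S r m (3 * r / 4)) := by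
    intro m hm
    exact φ.symm_image_eq_source_inter_preimage (hQsub m hm)
  have hQc : ∀ m, good m → IsCompact (Q m) := fun m hm =>
    isCompact_ccube.image_of_continuousOn (φ.symm.continuousOn.mono (hQsub m hm))
  have hclO : ∀ m, good m → closure (O m) ⊆ Q m := by
    intro m hm
    apply closure_minimal _ (hQc m hm).isClosed
    rw [hOg m hm, hQeq m hm]
    exact inter_subset_inter_right _ (preimage_mono cube_subset_ccube)
  have hQV : ∀ m, good m → Q m ⊆ V := by
    intro m hm
    obtain ⟨b, hb⟩ := hgood m hm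
    rw [hQeq m hm]
    rintro x ⟨hx, hxm⟩
    obtain ⟨y, hy, hyx⟩ := hcV b (hb hxm)
    rwa [φ.injOn (hVφ hy) hx hyx] at hy
  refine ⟨O, D, ?_, ?_, ?_, ?_, ?_, ?_, ?_, ?_, ?_, ?_⟩
  · intro m
    by_cases hm : good m
    · rw [hOg m hm]
      exact φ.isOpen_inter_preimage isOpen_cube
    · rw [hOn m hm]
      exact isOpen_empty
  · intro m
    by_cases hm : good m
    · exact (hQc m hm).of_isClosed_subset isClosed_closure (hclO m hm)
    · rw [hOn m hm, closure_empty]
      exact isCompact_empty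
  · intro m
    by_cases hm : good m
    · exact (hclO m hm).trans (hQV m hm)
    · rw [hOn m hm, closure_empty]
      exact empty_subset _
  · intro m
    by_cases hm : good m
    · have himg : φ.IsImage (O m) (cube S r m (3 * r / 4)) := by
        intro x hx
        rw [hOg m hm]
        exact ⟨fun h => ⟨hx, h⟩, fun h => h.2⟩
      have hfr := himg.frontier
      rw [frontier_cube hr0 hr340 hr34 (hgoodS m hm)] at hfr
      have hfrO : frontier (O m) = φ.symm '' (scube S r m (3 * r / 4)) := by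
        rw [φ.symm_image_eq_source_inter_preimage (scube_subset_ccube.trans (hQsub m hm))]
        ext x
        constructor
        · intro hx
          have hxs : x ∈ φ.source := hVφ (hQV m hm (hclO m hm (frontier_subset_closure hx)))
          exact ⟨hxs, (hfr hxs).mpr hx⟩
        · rintro ⟨hxs, hx⟩
          exact (hfr hxs).mp hx
      rw [hfrO]
      exact IsPreconnected.image (isPreconnected_scube hn hr0 hr34 (hgoodS m hm)) _
        (φ.symm.continuousOn.mono (scube_subset_ccube.trans (hQsub m hm)))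
    · rw [hOn m hm, frontier_empty]
      exact isPreconnected_empty
  · intro m
    by_cases hm : good m
    · obtain ⟨b, hb⟩ := hgood m hm
      have key : O m ⊆ (if b then U₀ else U₁) := by
        rw [hOg m hm]
        rintro x ⟨hx, hxm⟩
        obtain ⟨y, ⟨hyV, hyU⟩, hyx⟩ := hb (cube_subset_ccube hxm)
        rwa [φ.injOn (hVφ hyV) hx hyx] at hyU
      cases b
      · right; simpa using key
      · left; simpa using key
    · left
      rw [hOn m hm]
      exact empty_subset _
  · intro m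
    by_cases hm : good m
    · rw [hDg m hm]
      have h1 : IsClosed (C ∩ φ ⁻¹' (ccube S r m (r / 2))) :=
        (φ.continuousOn.mono hCφ).preimage_isClosed_of_isClosed hC.isClosed isClosed_ccube
      exact hC.of_isClosed_subset h1 inter_subset_left
    · rw [hDn m hm]
      exact isCompact_empty
  · intro m
    by_cases hm : good m
    · rw [hDg m hm, hOg m hm]
      rintro x ⟨hx, hxm⟩
      refine ⟨hCφ hx, ?_⟩
      have hx' : dist (φ x).1 (latt r m) ≤ r / 2 := hxm
      change dist (φ x).1 (latt r m) < 3 * r / 4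
      linarith
    · rw [hDn m hm]
      exact empty_subset _
  · intro x hx
    obtain ⟨m, hm⟩ := exists_latt hr0 (φ x).1
    have hg : good m := ⟨φ x, hm, x, hx, rfl⟩
    refine mem_iUnion.mpr ⟨m, ?_⟩
    rw [hDg m hg]
    exact ⟨hx, hm⟩
  · -- finiteness, by compactness
    have hK' : IsCompact (Subtype.val '' K : Set (Fin n → ℝ)) :=
      hK.image continuous_subtype_val
    obtain ⟨R, hR⟩ := hK'.isBounded.subset_closedBall (0 : Fin n → ℝ)
    obtain ⟨B, hB⟩ := exists_nat_ge ((R + r / 2) / r)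
    have hsub : {m | (O m).Nonempty} ⊆
        (Fintype.piFinset fun _ : Fin n => Finset.Icc (-(B : ℤ)) B : Set (Fin n → ℤ)) := by
      intro m hm
      have hg : good m := by
        by_contra h
        rw [mem_ofPred_eq, hOn m h] at hm
        exact not_nonempty_empty hm
      obtain ⟨x, hxm, hxK⟩ := hg
      have hxR := hR ⟨x, hxK, rfl⟩
      have hxm' : dist x.1 (latt r m) ≤ r / 2 := hxm
      rw [mem_closedBall] at hxR
      have h1 : dist (latt r m) 0 ≤ R + r / 2 := by
        calc dist (latt r m) 0 ≤ dist (latt r m) x.1 + dist x.1 0 := dist_triangle _ _ _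
          _ ≤ r / 2 + R := by rw [dist_comm (latt r m) x.1]; exact add_le_add hxm' hxR
          _ = R + r / 2 := by ring
      simp only [Finset.mem_coe, Fintype.mem_piFinset, Finset.mem_Icc]
      intro k
      have h2 : |r * (m k : ℝ)| ≤ R + r / 2 := by
        have := dist_le_pi_dist (latt r m) 0 k
        rw [Real.dist_eq] at this
        simp only [latt, Pi.zero_apply, sub_zero] at this
        exact this.trans h1
      rw [abs_mul, abs_of_pos hr0] at h2
      have h3 : |(m k : ℝ)| ≤ B := by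
        refine le_trans ?_ hB
        rw [le_div_iff₀ hr0]
        linarith
      rw [abs_le] at h3
      constructor
      · have := h3.1
        exact_mod_cast this
      · have := h3.2
        exact_mod_cast this
    exact (Finset.finite_toSet _).subset hsub
  · intro m m' hne hpar
    by_cases hm : good m
    · by_cases hm' : good m'
      · refine Disjoint.mono (hclO m hm) (hclO m' hm') ?_
        rw [Set.disjoint_left, hQeq m hm, hQeq m' hm']
        rintro x ⟨-, hx1⟩ ⟨-, hx2⟩
        have hx1' : dist (φ x).1 (latt r m) ≤ 3 * r / 4 := hx1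
        have hx2' : dist (φ x).1 (latt r m') ≤ 3 * r / 4 := hx2
        obtain ⟨k, hk⟩ : ∃ k, m k ≠ m' k := by
          by_contra hcon
          push Not at hcon
          exact hne (funext hcon)
        have h1 : |r * (m k : ℝ) - r * (m' k : ℝ)| ≤ 3 * r / 4 + 3 * r / 4 := by
          have h2 := dist_le_pi_dist (latt r m) (latt r m') k
          rw [Real.dist_eq] at h2
          refine h2.trans ((dist_triangle_left _ _ (φ x).1).trans (add_le_add hx1' hx2'))
        have h3 : (2 : ℤ) ≤ |m k - m' k| := by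
          have h4 : ((m k - m' k : ℤ) : ZMod 2) = 0 := by
            push_cast
            rw [hpar k, sub_self]
          rw [ZMod.intCast_zmod_eq_zero_iff_dvd] at h4
          obtain ⟨q, hq⟩ := h4
          have hq0 : q ≠ 0 := by
            rintro rfl
            simp at hq
            omega
          have hq1 : 1 ≤ |q| := Int.one_le_abs hq0
          push_cast at hq
          rw [hq, abs_mul]
          norm_num
          linarith
        have h5 : (2 : ℝ) ≤ |(m k : ℝ) - m' k| := by exact_mod_cast h3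
        rw [← mul_sub, abs_mul, abs_of_pos hr0] at h1
        nlinarith
      · rw [hOn m' hm', closure_empty]
        exact disjoint_empty _
    · rw [hOn m hm, closure_empty]
      exact empty_disjoint _

/-- Discrete families of cubes. -/
lemma family_cubes [T2Space M] {n : ℕ} (hn : 1 < n) {J : Type*} (S : J → Set (Fin n))
    (φ : ∀ j, OpenPartialHomeomorph M (Model n (S j))) (V C : J → Set M)
    (hV : ∀ j, IsOpen (V j)) (hVφ : ∀ j, V j ⊆ (φ j).source) (hC : ∀ j, IsCompact (C j))
    (hCV : ∀ j, C j ⊆ V j) (hdisj : ∀ i j, i ≠ j → Disjoint (V i) (V j)) (hfin : LocallyFinite V)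
    {U₀ U₁ : Set M} (hU₀ : IsOpen U₀) (hU₁ : IsOpen U₁) (hU : U₀ ∪ U₁ = univ) :
    ∃ O D : (Fin n → ZMod 2) → (J × (Fin n → ℤ)) → Set M,
      (∀ ε p, IsOpen (O ε p)) ∧ (∀ ε p, IsCompact (closure (O ε p))) ∧
      (∀ ε, Pairwise fun p q => Disjoint (closure (O ε p)) (closure (O ε q))) ∧
      (∀ ε, LocallyFinite (O ε)) ∧ (∀ ε p, IsPreconnected (frontier (O ε p))) ∧
      (∀ ε p, O ε p ⊆ U₀ ∨ O ε p ⊆ U₁) ∧ (∀ ε p, IsClosed (D ε p)) ∧
      (∀ ε p, D ε p ⊆ O ε p) ∧ ⋃ j, C j ⊆ ⋃ ε, ⋃ p, D ε p := by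
  classical
  choose O D h1 h2 h3 h4 h5 h6 h7 h8 h9 h10 using fun j =>
    chart_cubes hn (φ j) (hV j) (hVφ j) (hC j) (hCV j) hU₀ hU₁ hU
  let O' : (Fin n → ZMod 2) → (J × (Fin n → ℤ)) → Set M := fun ε p =>
    if (∀ k, (p.2 k : ZMod 2) = ε k) then O p.1 p.2 else ∅
  let D' : (Fin n → ZMod 2) → (J × (Fin n → ℤ)) → Set M := fun ε p =>
    if (∀ k, (p.2 k : ZMod 2) = ε k) then D p.1 p.2 else ∅
  have hO'g : ∀ ε p, (∀ k, (p.2 k : ZMod 2) = ε k) → O' ε p = O p.1 p.2 := fun ε p h => if_pos h
  have hO'n : ∀ ε p, (¬ ∀ k, (p.2 k : ZMod 2) = ε k) → O' ε p = ∅ := fun ε p h => if_neg h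
  have hD'g : ∀ ε p, (∀ k, (p.2 k : ZMod 2) = ε k) → D' ε p = D p.1 p.2 := fun ε p h => if_pos h
  have hD'n : ∀ ε p, (¬ ∀ k, (p.2 k : ZMod 2) = ε k) → D' ε p = ∅ := fun ε p h => if_neg h
  refine ⟨O', D', ?_, ?_, ?_, ?_, ?_, ?_, ?_, ?_, ?_⟩
  · intro ε p
    by_cases h : ∀ k, (p.2 k : ZMod 2) = ε k
    · rw [hO'g ε p h]; exact h1 _ _
    · rw [hO'n ε p h]; exact isOpen_empty
  · intro ε p
    by_cases h : ∀ k, (p.2 k : ZMod 2) = ε k
    · rw [hO'g ε p h]; exact h2 _ _
    · rw [hO'n ε p h, closure_empty]; exact isCompact_empty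
  · intro ε p q hpq
    by_cases hp : ∀ k, (p.2 k : ZMod 2) = ε k
    · by_cases hq : ∀ k, (q.2 k : ZMod 2) = ε k
      · simp only [hO'g ε p hp, hO'g ε q hq]
        by_cases hj : p.1 = q.1
        · have hm : p.2 ≠ q.2 := fun h => hpq (Prod.ext hj h)
          rw [hj]
          exact h10 _ _ _ hm fun k => (hp k).trans (hq k).symm
        · exact (hdisj _ _ hj).mono (h3 _ _) (h3 _ _)
      · simp only [hO'n ε q hq, closure_empty]
        exact disjoint_empty _
    · simp only [hO'n ε p hp, closure_empty]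
      exact empty_disjoint _
  · intro ε x
    obtain ⟨G, hG, hGfin⟩ := hfin x
    refine ⟨G, hG, ?_⟩
    have hsub : {p | (O' ε p ∩ G).Nonempty} ⊆
        ⋃ j ∈ {j | (V j ∩ G).Nonempty}, (fun m => (j, m)) '' {m | (O j m).Nonempty} := by
      rintro ⟨j, m⟩ ⟨y, hy, hyG⟩
      by_cases h : ∀ k, (((j, m) : J × (Fin n → ℤ)).2 k : ZMod 2) = ε k
      · rw [hO'g ε _ h] at hy
        simp only [mem_iUnion]
        exact ⟨j, ⟨y, h3 _ _ (subset_closure hy), hyG⟩, m, ⟨y, hy⟩, rfl⟩
      · rw [hO'n ε _ h] at hy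
        exact hy.elim
    exact (hGfin.biUnion fun j _ => (h9 j).image _).subset hsub
  · intro ε p
    by_cases h : ∀ k, (p.2 k : ZMod 2) = ε k
    · rw [hO'g ε p h]; exact h4 _ _
    · rw [hO'n ε p h, frontier_empty]; exact isPreconnected_empty
  · intro ε p
    by_cases h : ∀ k, (p.2 k : ZMod 2) = ε k
    · rw [hO'g ε p h]; exact h5 _ _
    · rw [hO'n ε p h]; exact Or.inl (empty_subset _)
  · intro ε p
    by_cases h : ∀ k, (p.2 k : ZMod 2) = ε k
    · rw [hD'g ε p h]; exact (h6 _ _).isClosed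
    · rw [hD'n ε p h]; exact isClosed_empty
  · intro ε p
    by_cases h : ∀ k, (p.2 k : ZMod 2) = ε k
    · rw [hD'g ε p h, hO'g ε p h]; exact h7 _ _
    · rw [hD'n ε p h]; exact empty_subset _
  · intro x hx
    obtain ⟨j, hj⟩ := mem_iUnion.mp hx
    obtain ⟨m, hm⟩ := mem_iUnion.mp (h8 j hj)
    refine mem_iUnion.mpr ⟨fun k => (m k : ZMod 2), mem_iUnion.mpr ⟨(j, m), ?_⟩⟩
    rw [hD'g _ _ fun k => rfl]
    exact hm

/-- A space with charts in the models is locally compact. -/
lemma locallyCompact [T2Space M] {n : ℕ} (S : M → Set (Fin n))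
    (φ : ∀ x, OpenPartialHomeomorph M (Model n (S x))) (hφ : ∀ x, x ∈ (φ x).source) :
    LocallyCompactSpace M := by
  have : WeaklyLocallyCompactSpace M := by
    constructor
    intro x
    have hlc : LocallyCompactSpace (Model n (S x)) := isClosedEmbedding_val.locallyCompactSpace
    obtain ⟨K, hK, hKt, hKc⟩ := local_compact_nhds
      ((φ x).open_target.mem_nhds ((φ x).map_source (hφ x)))
    refine ⟨(φ x).symm '' K, hKc.image_of_continuousOn ((φ x).symm.continuousOn.mono hKt), ?_⟩
    rw [(φ x).symm_image_eq_source_inter_preimage hKt]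
    exact inter_mem ((φ x).open_source.mem_nhds (hφ x))
      (((φ x).continuousAt (hφ x)).preimage_mem_nhds hK)
  infer_instance

/-- The discrete family at one point `y` of `βM`, for a function `f` with `f y = 1`. -/
lemma family_at {n : ℕ} (hn : 1 < n) [T2Space M] [LocallyCompactSpace M]
    [SigmaCompactSpace M] [NormalSpace M] (S : M → Set (Fin n))
    (φ : ∀ x, OpenPartialHomeomorph M (Model n (S x))) (hφ : ∀ x, x ∈ (φ x).source)
    (f : C(StoneCech M, ℝ)) {y : StoneCech M} (hfy : f y = 1) :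
    ∃ (J : Type) (O : J → Set M), (∀ j, IsOpen (O j)) ∧ (∀ j, IsCompact (closure (O j))) ∧
      (Pairwise fun i j => Disjoint (closure (O i)) (closure (O j))) ∧ LocallyFinite O ∧
      (∀ j, IsPreconnected (frontier (O j))) ∧ (∀ j, ∀ w ∈ O j, 1/3 < f (stoneCechUnit w)) ∧
      y ∉ closure (stoneCechUnit '' (⋃ j, O j)ᶜ : Set (StoneCech M)) := by
  classical
  have hg : Continuous fun z : M => f (stoneCechUnit z) := f.continuous.comp continuous_stoneCechUnit
  set U₀ : Set M := {z | f (stoneCechUnit z) < 2/3} with hU₀def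
  set U₁ : Set M := {z | 1/3 < f (stoneCechUnit z)} with hU₁def
  have hU₀ : IsOpen U₀ := isOpen_lt hg continuous_const
  have hU₁ : IsOpen U₁ := isOpen_lt continuous_const hg
  have hU : U₀ ∪ U₁ = univ := by
    refine eq_univ_of_forall fun z => ?_
    by_cases h : f (stoneCechUnit z) < 2/3
    · exact Or.inl h
    · right
      rw [not_lt] at h
      have : (1/3 : ℝ) < f (stoneCechUnit z) := by linarith
      exact this
  -- the locally finite cover by charts
  obtain ⟨α, c, U, hcount, hUo, hUc, hUs, hUcov, hUfin⟩ :=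
    exists_chart_cover (fun x => (φ x).source) (fun x => (φ x).open_source) hφ
  obtain ⟨ι, hι⟩ := hcount
  -- the compact sets, indexed by natural numbers
  let A : ℕ → Set M := fun k => ⋃ a ∈ ι ⁻¹' {k}, closure (U a)
  have hAι : ∀ a, A (ι a) = closure (U a) := by
    intro a
    have : ι ⁻¹' {ι a} = {a} := by
      ext b
      simp only [mem_preimage, mem_singleton_iff]
      exact hι.eq_iff
    simp only [A, this, biUnion_singleton]
  have hAemp : ∀ k, k ∉ range ι → A k = ∅ := by
    intro k hk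
    have : ι ⁻¹' {k} = ∅ := by
      ext b
      simp only [mem_preimage, mem_singleton_iff, mem_empty_iff_false, iff_false]
      exact fun h => hk ⟨b, h⟩
    simp only [A, this, biUnion_empty]
  have hAclosed : ∀ k, IsClosed (A k) := by
    intro k
    by_cases hk : k ∈ range ι
    · obtain ⟨a, rfl⟩ := hk
      rw [hAι]; exact isClosed_closure
    · rw [hAemp k hk]; exact isClosed_empty
  have hAfin : LocallyFinite A := by
    intro z
    obtain ⟨G, hG, hGfin⟩ := hUfin.closure z
    refine ⟨G, hG, (hGfin.image ι).subset ?_⟩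
    rintro k ⟨w, hw, hwG⟩
    by_cases hk : k ∈ range ι
    · obtain ⟨a, rfl⟩ := hk
      rw [hAι] at hw
      exact ⟨a, ⟨w, hw, hwG⟩, rfl⟩
    · rw [hAemp k hk] at hw
      exact hw.elim
  have hAcov : ⋃ k, A k = univ := by
    refine eq_univ_of_forall fun z => ?_
    have hz : z ∈ ⋃ a, U a := by rw [hUcov]; trivial
    obtain ⟨a, ha⟩ := mem_iUnion.mp hz
    refine mem_iUnion.mpr ⟨ι a, ?_⟩
    rw [hAι]
    exact subset_closure ha
  -- shrink the cover so that it has order at most `2 ^ n`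
  obtain ⟨W, hWo, hWU, hWcov, hWord⟩ := exists_order_shrink (N := 2 ^ n) A hAclosed hAfin hAcov
    (by
      intro k U' hU' hU'c
      by_cases hk : k ∈ range ι
      · obtain ⟨a, rfl⟩ := hk
        refine single_chart_shrink (φ (c a)) (A := A (ι a)) ?_ ?_ U' hU' ?_
        · rw [hAι]; exact hUc a
        · rw [hAι]; exact hUs a
        · rw [hU'c]; exact subset_univ _
      · refine ⟨fun _ => ∅, fun _ => isOpen_empty, fun _ => empty_subset _, ?_, ?_⟩
        · rw [hAemp k hk]; exact empty_subset _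
        · intro z
          exact ⟨∅, by simp, fun s hs => hs.elim⟩)
    U hUo hUcov
  have hWfin : LocallyFinite W := hUfin.subset hWU
  obtain ⟨V, C, hVo, hCc, hCV, hVW, hVfin, hVdisj, hCcov⟩ :=
    exists_discrete_families (N := 2 ^ n) (by positivity) W hWo hWcov hWfin hWord
  -- `y` is in the closure of one of the discrete families
  obtain ⟨i, hi⟩ : ∃ i : ℕ, y ∈ closure (stoneCechUnit ''
      (⋃ T : {T : {T : Finset α // T.Nonempty} // T.1.card = i}, C T) : Set (StoneCech M)) := by
    have hcov : (univ : Set M) ⊆ ⋃ i ∈ Finset.range (2 ^ n + 1),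
        (⋃ T : {T : {T : Finset α // T.Nonempty} // T.1.card = i}, C T) := by
      intro z _
      obtain ⟨T, hT, hz⟩ := hCcov z
      rw [mem_iUnion₂]
      exact ⟨T.1.card, by rw [Finset.mem_range]; omega, mem_iUnion.mpr ⟨⟨T, rfl⟩, hz⟩⟩
    have h1 := closure_mono (image_mono hcov) (mem_closure_image_univ y)
    rw [image_iUnion₂, Finset.closure_biUnion] at h1
    rw [mem_iUnion₂] at h1
    obtain ⟨i, -, hi⟩ := h1
    exact ⟨i, hi⟩
  -- refine to small cubes
  obtain ⟨O, D, hOo, hOc, hOdisj, hOfin, hOfr, hOU, hDc, hDO, hCD⟩ := family_cubes hn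
    (J := {T : {T : Finset α // T.Nonempty} // T.1.card = i})
    (fun T => S (c T.1.2.choose))
    (fun T => φ (c T.1.2.choose)) (fun T => V T.1) (fun T => C T.1) (fun T => hVo _)
    (fun T => (subset_closure.trans (hVW T.1 _ T.1.2.choose_spec)).trans
      ((hWU _).trans (subset_closure.trans (hUs _))))
    (fun T => by
      refine (hUc (T.1.2.choose)).of_isClosed_subset (hCc T.1) ?_
      exact (hCV T.1).trans ((subset_closure.trans (hVW T.1 _ T.1.2.choose_spec)).trans
        ((hWU _).trans subset_closure)))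
    (fun T => hCV T.1)
    (fun T T' hne => ((hVdisj T.1 T'.1 (fun h => hne (Subtype.ext h))
      (T.2.trans T'.2.symm)).mono subset_closure subset_closure))
    (hVfin.comp_injective Subtype.val_injective) hU₀ hU₁ hU
  obtain ⟨ε, hε⟩ : ∃ ε, y ∈ closure (stoneCechUnit '' (⋃ p, D ε p) : Set (StoneCech M)) := by
    have h1 := closure_mono (image_mono hCD) hi
    rw [image_iUnion, closure_iUnion_of_finite] at h1
    exact mem_iUnion.mp h1
  -- keep the cubes on which `f` is close to `1`
  let J' := {p // ¬ (O ε p ⊆ U₀)}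
  let O' : J' → Set M := fun p => O ε p
  set Wc : Set M := (⋃ j, O' j)ᶜ with hWc
  have hWcclosed : IsClosed Wc := (isOpen_iUnion fun j => hOo ε _).isClosed_compl
  refine ⟨J', O', fun j => hOo ε j, fun j => hOc ε j,
    fun p q hpq => hOdisj ε (fun h => hpq (Subtype.ext h)),
    (hOfin ε).comp_injective Subtype.val_injective, fun j => hOfr ε j, ?_, ?_⟩
  · rintro ⟨p, hp⟩ w hw
    exact ((hOU ε p).resolve_left hp) hw
  · intro hy1
    -- `y` is in the closure of a closed set disjoint from `Wc`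
    have hopen : IsOpen ({z | 2/3 < f z} : Set (StoneCech M)) :=
      isOpen_lt continuous_const f.continuous
    have hy2 : y ∈ closure (stoneCechUnit '' ((⋃ p, D ε p) ∩ {z | 2/3 ≤ f (stoneCechUnit z)}) :
        Set (StoneCech M)) := by
      refine closure_mono (image_mono ?_) (mem_closure_image_inter hopen
        (by simp only [mem_ofPred_eq, hfy]; norm_num) hε)
      rintro w ⟨hw1, hw2⟩
      exact ⟨hw1, (show 2/3 < f (stoneCechUnit w) from hw2).le⟩
    have hclosed : IsClosed ((⋃ p, D ε p) ∩ {z | 2/3 ≤ f (stoneCechUnit z)}) := by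
      refine IsClosed.inter ?_ (isClosed_le continuous_const hg)
      exact ((hOfin ε).subset (hDO ε)).isClosed_iUnion (hDc ε)
    have hdis : Disjoint ((⋃ p, D ε p) ∩ {z | 2/3 ≤ f (stoneCechUnit z)}) Wc := by
      rw [Set.disjoint_left]
      rintro w ⟨hw1, hw2⟩ hwW
      obtain ⟨p, hp⟩ := mem_iUnion.mp hw1
      apply hwW
      have hp' : ¬ (O ε p ⊆ U₀) := by
        intro h
        have h1 : f (stoneCechUnit w) < 2/3 := h (hDO ε p hp)
        have h2 : 2/3 ≤ f (stoneCechUnit w) := hw2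
        linarith
      exact mem_iUnion.mpr ⟨⟨p, hp'⟩, hDO ε p hp⟩
    exact Set.disjoint_left.mp (disjoint_closure_image hclosed hWcclosed hdis) hy2 hy1

/-- A continuous function that is `0` on a closed set and takes distinct positive integer values at
the points of a finite set. -/
lemma exists_label {Y : Type*} [TopologicalSpace Y] [NormalSpace Y] [T1Space Y] {A : Set Y}
    (hA : IsClosed A) (F : Finset Y) (hAF : Disjoint A (F : Set Y)) :
    ∃ (g : C(Y, ℝ)) (ℓ : Y → ℕ), (∀ a ∈ A, g a = 0) ∧ (∀ y ∈ F, g y = ℓ y ∧ 1 ≤ ℓ y) ∧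
      ∀ y ∈ F, ∀ y' ∈ F, ℓ y = ℓ y' → y = y' := by
  classical
  have hex : ∀ y : Y, ∃ f : C(Y, ℝ), y ∈ F → (∀ a ∈ A, f a = 0) ∧ (∀ z ∈ F, z ≠ y → f z = 0) ∧
      f y = 1 := by
    intro y
    by_cases hy : y ∈ F
    · have h1 : IsClosed (A ∪ ((F.erase y : Finset Y) : Set Y)) :=
        hA.union (Finset.finite_toSet _).isClosed
      have h2 : Disjoint (A ∪ ((F.erase y : Finset Y) : Set Y)) {y} := by
        rw [disjoint_singleton_right]
        rintro (h | h)
        · exact disjoint_left.mp hAF h hy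
        · simp at h
      obtain ⟨f, hf0, hf1, -⟩ := exists_continuous_zero_one_of_isClosed h1 isClosed_singleton h2
      refine ⟨f, fun _ => ⟨fun a ha => hf0 (Or.inl ha), fun z hz hzy => hf0 (Or.inr ?_), hf1 rfl⟩⟩
      simp [hz, hzy]
    · exact ⟨0, fun h => absurd h hy⟩
  choose f hf using hex
  let ℓ : Y → ℕ := fun y => if h : y ∈ F then (F.equivFin ⟨y, h⟩ : ℕ) + 1 else 0
  refine ⟨∑ y ∈ F, (ℓ y : ℝ) • f y, ℓ, ?_, ?_, ?_⟩
  · intro a ha
    rw [ContinuousMap.coe_sum, Finset.sum_apply]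
    apply Finset.sum_eq_zero
    intro y hy
    simp [(hf y hy).1 a ha]
  · intro y hy
    constructor
    · rw [ContinuousMap.coe_sum, Finset.sum_apply, Finset.sum_eq_single_of_mem y hy]
      · simp [(hf y hy).2.2]
      · intro z hz hzy
        simp [(hf z hz).2.1 y hy (Ne.symm hzy)]
    · simp [ℓ, hy]
  · intro y hy y' hy' h
    simp only [ℓ, hy, hy', dif_pos, add_left_inj] at h
    have := F.equivFin.injective (Fin.ext h)
    exact congrArg Subtype.val this

/-- **Main theorem**: if the remainder of an `n`-manifold with boundary or corners, `n > 1`, is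
connected, then for every closed set `A` and finite set `F` disjoint from `A` it contains a
subcontinuum that contains a neighbourhood of `A` and misses `F`. -/
theorem strong {n : ℕ} (hn : 1 < n) [T2Space M] [LocallyCompactSpace M]
    [SigmaCompactSpace M] [NormalSpace M] (S : M → Set (Fin n))
    (φ : ∀ x, OpenPartialHomeomorph M (Model n (S x))) (hφ : ∀ x, x ∈ (φ x).source)
    (hR : IsPreconnected (remainder M)) {A : Set (StoneCech M)} (hA : IsClosed A)
    (hAR : A ⊆ remainder M) (hAne : A.Nonempty) (F : Finset (StoneCech M))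
    (hAF : Disjoint A (F : Set (StoneCech M))) :
    ∃ K ⊆ remainder M, IsCompact K ∧ IsConnected K ∧ Disjoint K (F : Set (StoneCech M)) ∧
      ∃ U : Set (StoneCech M), IsOpen U ∧ A ⊆ U ∧ U ∩ remainder M ⊆ K := by
  classical
  obtain ⟨g, ℓ, hg0, hgℓ, hℓ⟩ := exists_label hA F hAF
  have hgc : Continuous fun z : M => g (stoneCechUnit z) :=
    g.continuous.comp continuous_stoneCechUnit
  have hfam : ∀ y : F, ∃ (J : Type) (O : J → Set M), (∀ j, IsOpen (O j)) ∧
      (∀ j, IsCompact (closure (O j))) ∧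
      (Pairwise fun i j => Disjoint (closure (O i)) (closure (O j))) ∧ LocallyFinite O ∧
      (∀ j, IsPreconnected (frontier (O j))) ∧
      (∀ j, ∀ w ∈ O j, |g (stoneCechUnit w) - ℓ y| < 1/3) ∧
      (y : StoneCech M) ∉ closure (stoneCechUnit '' (⋃ j, O j)ᶜ : Set (StoneCech M)) := by
    rintro ⟨y, hy⟩
    let f : C(StoneCech M, ℝ) := ⟨fun z => 1 - 2 * |g z - ℓ y|, by fun_prop⟩
    have hfy : f y = 1 := by
      simp [f, (hgℓ y hy).1]
    obtain ⟨J, O, h1, h2, h3, h4, h5, h6, h7⟩ := family_at hn S φ hφ f hfy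
    refine ⟨J, O, h1, h2, h3, h4, h5, ?_, h7⟩
    intro j w hw
    have h8 : (1/3 : ℝ) < 1 - 2 * |g (stoneCechUnit w) - ℓ y| := h6 j w hw
    change |g (stoneCechUnit w) - (ℓ y : ℝ)| < 1/3
    linarith
  choose J O h1 h2 h3 h4 h5 h6 h7 using hfam
  let O' : (Σ y : F, J y) → Set M := fun p => O p.1 p.2
  have hcl : ∀ y j, closure (O y j) ⊆ {w | |g (stoneCechUnit w) - ℓ y| ≤ 1/3} := by
    intro y j
    apply closure_minimal
    · intro w hw
      exact (h6 y j w hw).le
    · exact isClosed_le (hgc.sub continuous_const).abs continuous_const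
  have hdisj : Pairwise fun p q => Disjoint (closure (O' p)) (closure (O' q)) := by
    rintro ⟨y, j⟩ ⟨y', j'⟩ hne
    by_cases hyy : y = y'
    · subst hyy
      have hjj : j ≠ j' := by
        rintro rfl
        exact hne rfl
      exact h3 y hjj
    · rw [Set.disjoint_left]
      intro w hw hw'
      have ha : |g (stoneCechUnit w) - ℓ y| ≤ 1/3 := hcl y j hw
      have hb : |g (stoneCechUnit w) - ℓ y'| ≤ 1/3 := hcl y' j' hw'
      have hc : ℓ y ≠ ℓ y' := fun h => hyy (Subtype.ext (hℓ y.1 y.2 y'.1 y'.2 h))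
      rw [abs_le] at ha hb
      rcases lt_or_gt_of_ne hc with h | h
      · have h' : (ℓ y : ℝ) + 1 ≤ ℓ y' := by exact_mod_cast h
        linarith
      · have h' : (ℓ y' : ℝ) + 1 ≤ ℓ y := by exact_mod_cast h
        linarith
  have hfin : LocallyFinite O' := by
    intro z
    choose G hG hGfin using fun y => h4 y z
    refine ⟨⋂ y, G y, Filter.iInter_mem.2 hG, ?_⟩
    refine (Set.finite_iUnion fun y : F => (hGfin y).image (Sigma.mk y)).subset ?_
    rintro ⟨y, j⟩ ⟨w, hw, hwG⟩
    exact mem_iUnion.mpr ⟨y, j, ⟨w, hw, mem_iInter.mp hwG y⟩, rfl⟩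
  set Wc : Set M := (⋃ p, O' p)ᶜ with hWc
  have hconn := isPreconnected_remainder_compl hR O' (fun p => h1 _ _) (fun p => h2 _ _) hdisj hfin
    (fun p => h5 _ _)
  have hUA : ∀ z ∈ ({z | |g z| < 1/3} : Set (StoneCech M)),
      z ∈ closure (stoneCechUnit '' Wc : Set (StoneCech M)) := by
    intro z hz
    have hopen : IsOpen ({z | |g z| < 1/3} : Set (StoneCech M)) :=
      isOpen_lt (by fun_prop) continuous_const
    refine closure_mono (image_mono ?_)
      (mem_closure_image_inter hopen hz (mem_closure_image_univ z))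
    rintro w ⟨-, hw⟩ hwO
    obtain ⟨⟨y, j⟩, hwp⟩ := mem_iUnion.mp hwO
    have ha : |g (stoneCechUnit w) - ℓ y| < 1/3 := h6 y j w hwp
    have hb : |g (stoneCechUnit w)| < 1/3 := hw
    have hc : (1 : ℝ) ≤ ℓ y := by exact_mod_cast (hgℓ y.1 y.2).2
    rw [abs_lt] at ha hb
    linarith
  obtain ⟨a, ha⟩ := hAne
  have hAU : A ⊆ {z | |g z| < 1/3} := by
    intro z hz
    simp only [mem_ofPred_eq, hg0 z hz]
    norm_num
  refine ⟨closure (stoneCechUnit '' Wc : Set (StoneCech M)) ∩ remainder M, inter_subset_right,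
    (isClosed_closure.inter isClosed_remainder).isCompact,
    ⟨⟨a, hUA a (hAU ha), hAR ha⟩, hconn⟩, ?_,
    {z | |g z| < 1/3}, isOpen_lt (by fun_prop) continuous_const, hAU, ?_⟩
  · rw [Set.disjoint_left]
    rintro y ⟨hy, -⟩ hyF
    refine h7 ⟨y, hyF⟩ (closure_mono (image_mono ?_) hy)
    apply compl_subset_compl.mpr
    intro w hw
    obtain ⟨j, hj⟩ := mem_iUnion.mp hw
    exact mem_iUnion.mpr ⟨⟨⟨y, hyF⟩, j⟩, hj⟩
  · rintro z ⟨hz1, hz2⟩
    exact ⟨hUA z hz1, hz2⟩

end Pool.Agent.Lib.H22A
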